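import Pool.Agent.W896.FD.Gap

/-!
# The gap exponential time hypothesis for circuits of linear formal degree

A Boolean circuit with AND gates of fan-in two, OR gates of any fan-in and negations at the inputs
accepts if and only if it has a proof tree all of whose leaves are true literals; the formal degree
in an input bit is the largest number of leaves with this bit. (Circuits of polynomial size and
polynomial total degree are non-uniform LOGCFL, that is, non-uniform nondeterministic machines with
logarithmic memory, a stack and polynomial time; a nondeterministic syntactic read-`k` branching
program is a circuit of degree at most `k` in every bit.)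

The theorem is the gap exponential time hypothesis, with the bound `2 ^ Ω (M)`, for one-sided
randomised families of such circuits: if all circuits of the family reject the 3-CNF formulas with
`M` clauses of which every assignment falsifies at least `M / 2 ^ (120 (k + 1))` clauses, and every
satisfiable formula is accepted with probability at least `2 ^ (- ⌊M / 2 ^ (60 (k + 1))⌋)`, and if
the formal degree, summed up over the signs of the first literals of the clauses only, is at most
`k M`, then some circuit of the family has at least `2 ^ (M / 2 ^ (60 (k + 1)) - 1)` gates. The
other bits may be read without any restriction. The hard formulas have at most `M / 4 + 1`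
variables, so the bound is exponential in the number of the variables as well.

Proof. The hard formulas are conjunctions of clauses `y i = z i` and `y i = z' i`, each of them
with an additional literal `a`, and of clauses `¬ a`, in a random order. If the words `z` and `z'`
are equal then the formula is satisfiable, and otherwise at least as many clauses are falsified as
there are places in which they differ. Every proof tree is decomposed into `O (k ^ 2)` pieces, and
a random colouring of the pieces gives a rectangle; for a random order of the clauses many of the
pairs `z i`, `z' i` are separated by it, while all words in the rectangle are near to each other,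
so that it is small: a ball of radius `M / 2 ^ (120 (k + 1))` has at most
`2 ^ (M / 2 ^ (60 (k + 1)))` points.
-/

set_option autoImplicit false

namespace Pool.Agent.Results.MP_87d05f_lc.FormalDegree

open Pool.Agent.H554R2.Cnf Pool.Agent.W896.RK Pool.Agent.W896.FD.Gap

/-- Let `M + 1 ≤ 2 ^ ℓ` and let `U r`, `r` in the finite nonempty set `R`, be circuits for 3-CNF
formulas with `M` clauses and variables named by words of `ℓ` bits. Suppose that no `U r` accepts a
formula of which every assignment falsifies at least `M / 2 ^ (120 (k + 1))` clauses, that every
satisfiable formula is accepted by at least a fraction `2 ^ (- ⌊M / 2 ^ (60 (k + 1))⌋)` of the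
`U r`, and that the sum of the formal degrees of every `U r` in the `M` signs of the first literals
of the clauses is at most `k M`. Then `M ≤ 2 ^ (60 (k + 1)) (⌊log₂ s⌋ + 1)` for the number `s` of
gates of some `U r`. -/
theorem result (k M ℓ : ℕ) (hℓ : M + 1 ≤ 2 ^ ℓ) (R : Type) [Fintype R] [Nonempty R]
    (U : R → Circ (Idx M ℓ))
    (hU : ∀ r w, (U r).Val w (U r).out → ∃ α, 2 ^ (120 * (k + 1)) * falsified w α < M)
    (hc : ∀ w, Sat3 w → Nat.card R ≤ 2 ^ (M / 2 ^ (60 * (k + 1))) *
      Nat.card {r // (U r).Val w (U r).out})
    (hd : ∀ r, ∃ d : (U r).G → Fin M → ℕ, IsDeg (U r) (fun j => (sgn ℓ j : Idx M ℓ)) d ∧
      ∑ e, d (U r).out e ≤ k * M) :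
    ∃ r, M ≤ 2 ^ (60 * (k + 1)) * (Nat.log 2 (Fintype.card (U r).G) + 1) :=
  gap_final k M ℓ hℓ R U hU hc hd

end Pool.Agent.Results.MP_87d05f_lc.FormalDegree
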