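import Pool.Agent.W934.G.Fin

/-!
# The deterministic Gap-ETH for programs of linear length

Deterministic (non-uniform) machines with `o(M)` bits of memory cannot separate the satisfiable
3-CNF formulas with `M` clauses from those of which every assignment falsifies a constant fraction
of the clauses, as long as the signs of the first literals of some `n = ⌊M / D⌋` of the clauses are
read at most `k` times on average, for every constant `k`; all the other bits of the instance may be
read without any restriction.  The same holds for randomised programs which never accept a formula
of the second kind and accept every satisfiable formula with probability at least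
`2 ^ (- ⌊n / D⌋)`.

Proof.  There are systems of `O(n)` clauses of bounded width over `n` variables for which
deterministic programs of length `k n` with few nodes do not separate the points which satisfy all
clauses from the points which violate many of them (`Pool.Agent.H554R2.Gap`, helper554's team).
The variables which occur in too many of the clauses are given suitable values; this changes the
number of solutions and the size of the rectangles of points which violate few clauses by small
factors only, and afterwards every variable occurs in a bounded number of clauses.  So the clauses
can be evaluated by an instance of 3-SAT in which the bit `x i` is a sign in a clause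
`(y i = x i) ∨ z i ∨ z i` (with another clause `¬ z i`), and every falsified clause of this instance
accounts for a bounded number of violated clauses of the system.
-/

set_option autoImplicit false

namespace Pool.Agent.Results.MP_87d05f_lc.GapLinearTime

open Pool.Agent.H554R2.Sem Pool.Agent.H554R2.Coin Pool.Agent.H554R2.Cnf

/-- The number of clauses of the instance `w` of 3-SAT which are falsified by the assignment
`α`. -/
noncomputable def falsified {M ℓ : ℕ} (w : Idx M ℓ → Bool) (α : (Fin ℓ → Bool) → Bool) : ℕ :=
  Nat.card {c : Fin M // ∀ p : Fin 3, α (fun j => w (c, p, some j)) ≠ w (c, p, none)}

/-- For every `k` there is a constant `D` such that for all `n`, `M`, `ℓ` with `D n ≤ M` and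
`D n ≤ 2 ^ ℓ` and for any `n` clauses `a i` of the 3-CNF formulas with `M` clauses and variables
named by words of `ℓ` bits the bits other than the signs of the first literals of these clauses
can be given values `b` such that for every finite family `U r` of deterministic branching
programs: if no `U r` outputs `true` on a formula of the family so obtained (`x i` is the sign of
the first literal of the clause `a i`) of which every assignment falsifies at least `n / D` clauses,
and if for every satisfiable one at least a `2 ^ (- ⌊n / D⌋)` fraction of the `U r` outputs `true`
after at most `k n` queries to these `n` signs (and any number of other queries), then some `U r`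
has at least `2 ^ ⌊n / D⌋` nodes. -/
theorem result (k : ℕ) : ∃ D : ℕ, 0 < D ∧ ∀ (n M ℓ : ℕ) (a : Fin n ↪ Fin M), D * n ≤ M →
    D * n ≤ 2 ^ ℓ → ∃ b : Idx M ℓ → Bool, ∀ (R : Type) [Fintype R] [Nonempty R]
      (U : R → BP (Idx M ℓ) Bool),
      (∀ r (x : Pt n) L, (U r).Comp (plug (fun i => sgn ℓ (a i)) b x) L true →
        ∃ α, D * falsified (plug (fun i => sgn ℓ (a i)) b x) α < n) →
      (∀ x : Pt n, Sat3 (plug (fun i => sgn ℓ (a i)) b x) → Nat.card R ≤ 2 ^ (n / D) *
        Nat.card {r // ∃ L, (U r).Comp (plug (fun i => sgn ℓ (a i)) b x) L true ∧
          ∑ i, L.count (sgn ℓ (a i)) ≤ k * n}) →
      ∃ r, 2 ^ (n / D) ≤ Fintype.card (U r).State :=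
  Pool.Agent.W934.G.finalGap k

end Pool.Agent.Results.MP_87d05f_lc.GapLinearTime
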