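import Pool.Agent.W115.RC.Gap

/-!
# Monotone (real) circuits cannot tell satisfiable 3-CNFs from random ones: the gap problem

The inputs of the circuits are constraints: a constraint is an ordered list of `k` distinct
variables among `n`, with a pattern of negations, to which a fixed predicate `P` is applied (for
`P = sat k`: clauses of width `k`). A circuit separates the promise sets of the gap problem if it
rejects every satisfiable set of constraints and accepts every set of constraints such that every
assignment violates at least a fraction `ρ` of them; this is a monotone problem.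

Let `P` support a `t`-wise uniform distribution, let `rejects P` be the fraction of the vectors
that `P` rejects (`2 ^ (-k)` for `k`-SAT, `1 / 2` for `k`-XOR), and let `δ > 0`. Let
`(t + 2) (c + τ) < t` and `max 1 ((t - 1) / 2) (c + τ) < (t - 1) / 2`. For some constant `A` and all
large `n`, a monotone real circuit with at most `exp (n ^ c)` gates of fan-in at most `2 n ^ τ` (a
gate is any nondecreasing real function of earlier gates; AND and OR are the case of the minimum
and the maximum of two values) which rejects more than the fraction
`exp (- n ^ c)` of the planted satisfiable instances (all constraints true under a random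
assignment) errs on nearly all the random instances with `A n` constraints: it rejects them, while
every assignment violates at least the fraction `rejects P - δ` of the constraints.

So for 3-SAT the gap problem with the best possible fraction `1 / 8 - δ`, restricted to formulas
with `O (n)` clauses on the side of the unsatisfiable formulas, needs monotone circuits of size
`exp (n ^ (1 / 2 - o (1)))`, even with real gates, for `k`-SAT, `k ≥ 4`, with fraction `2 ^ (- k) - δ`, size
`exp (n ^ ((k - 1) / (k + 1) - o (1)))`.

Proof: `Pool.Agent.W115.Xor.real_lower_bound` (the method of approximations with level inequalities for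
sets of assignments), and a Chernoff bound.
-/

set_option autoImplicit false

namespace Pool.Agent.Results.MP_87d05f_lc.GapMonotone

open Filter Pool.Agent.W115.Mon Pool.Agent.W115.Xor
open Pool.Agent.W115.RC (RealCircuit)

/-- Monotone real circuits and the gap problem for constraint satisfaction. -/
theorem result (k : ℕ) (hk : 3 ≤ k) :
    (∀ (P : (Fin k → Bool) → Prop) (t : ℕ), Supports P t → t < k →
      ∀ δ c τ : ℝ, 0 < δ → 0 < c → 0 ≤ τ → ((t : ℝ) + 2) * (c + τ) < t →
        max 1 (((t : ℝ) - 1) / 2) * (c + τ) < ((t : ℝ) - 1) / 2 →
        ∃ A : ℕ, ∃ ε : ℝ, 0 < ε ∧ ∀ᶠ n : ℕ in atTop, ∀ d : ℕ, (d : ℝ) ≤ 2 * (n : ℝ) ^ τ →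
          ∀ K : RealCircuit (Con n k) d,
          (K.size : ℝ) ≤ Real.exp ((n : ℝ) ^ c) →
          Real.exp (-(n : ℝ) ^ c) * Nat.card (Fin n → Bool) <
            (Nat.card {α : Fin n → Bool // ¬ K.Accepts (planted P α)} : ℝ) →
          (1 - (n : ℝ) ^ (-ε)) * Nat.card (Fin (A * n) → Con n k) ≤
            (Nat.card {f : Fin (A * n) → Con n k // Function.Injective f ∧
              Far P (rejects P - δ) (Finset.univ.image f) ∧
                ¬ K.Accepts (Finset.univ.image f)} : ℝ)) ∧
    (Supports (sat k) (k - 1) ∧ rejects (sat k) = 1 / 2 ^ k) ∧
    (Supports (odd k) (k - 1) ∧ rejects (odd k) = 1 / 2) := by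
  classical
  refine ⟨?_, ⟨sat_supports (by omega), rejects_sat⟩, odd_supports (by omega),
    rejects_odd (by omega)⟩
  intro P t hP ht δ c τ hδ hc hτ h1 h2
  obtain ⟨A, ε, hε, hev⟩ := real_gap_bound hP ht hk hδ hc hτ h1 h2
  refine ⟨A, ε, hε, ?_⟩
  filter_upwards [hev] with n hn d hd K hK hrej
  rw [Nat.card_eq_fintype_card, Nat.card_eq_fintype_card, Fintype.card_subtype] at hrej
  rw [Nat.card_eq_fintype_card, Nat.card_eq_fintype_card, Fintype.card_subtype]
  have h3 := hn d hd K hK hrej
  refine h3.trans (le_of_eq ?_)
  congr 2

end Pool.Agent.Results.MP_87d05f_lc.GapMonotone
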